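import Pool.Agent.Lib_helper75.BVM.Ordinals
import Pool.Agent.Lib_helper75.CohenRandom.Dowker3
import Pool.Agent.Lib_helper75.CohenRandom.Lusin2

/-!
# A first-countable, locally countable Dowker space of size `ℵ₁` without Lusin sets

We construct a model of ZFC in which there is a first-countable, locally countable Dowker space
with underlying set `ω₁`, but no Lusin set. The model is a quotient (by an ultrafilter) of the
Boolean-valued universe for the algebra of the measurable subsets of `Y × Z` modulo the sets whose
section at `y` is null for comeager many `y`. Here `Y = ω ^ ω`, and `Z = 2 ^ (κ × ω)` with the
product measure and `κ = 2 ^ ω₁`; so the model adds one Cohen real followed by `κ` random reals.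

* The Cohen real `c` gives a topology on `ω₁ × ω`: the point `(δ, n + 1)` is a limit of the points
  `(v, n)`, where `v` is in one of the finite sets that `c` chooses in the intervals of a ladder of
  `δ`. A closed set with uncountable intersection with the layer `ω₁ × {n}` contains `(δ, n + 1)`
  for all `δ` in a club. Since a random extension does not change finite unions much (the
  measure of a countable union is approximated by finite unions), this holds in the extension by
  the random reals as well. So of two disjoint closed sets one is countable, which gives
  normality, and the closed sets `ω₁ × [n, ω)` witness that the space is not countably paracompact.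
* A set of `ℵ₁` reals is in the extension by `c` and `ℵ₁` of the random reals. Let `r` be another
  random real. Each real of the set is in one of the nowhere dense sets
  `{x | ∀ i ≥ k, x and r do not agree on [i², i² + i)}`, so the set is not a Lusin set.
-/

set_option autoImplicit false

namespace Pool.Agent.Results.MP_cba831_lc.DowkerNoLusin

open Pool.Agent.BVM Pool.Agent.CR Cardinal

/-- The ground model version of `ω₁`. -/
abbrev W : Type := (ℵ₁ : Cardinal.{0}).ord.ToType

theorem countable_below (w : W) : Countable {v : W // v < w} := by
  have h := Cardinal.mk_Iio_toType_ord_lt w
  have h2 : (Set.Iio w).Countable := (Cardinal.countable_iff_lt_aleph_one _).mpr h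
  exact h2.to_subtype

theorem uncountable_W : Uncountable W := by
  rw [← Cardinal.aleph0_lt_mk_iff, Cardinal.mk_ord_toType]
  exact Cardinal.aleph0_lt_aleph_one

/-- There is a model of ZFC that contains a first-countable, locally countable Dowker space whose
underlying set is the first uncountable ordinal, but that contains no Lusin set. -/
theorem result : ∃ (M : Type 1) (E : M → M → Prop), ModelZFC E ∧
    (∃ X T : M, IsOmegaOne E X ∧ IsDowkerSpace E X T ∧ IsFirstCountable E X T ∧
      IsLocallyCountable E X T) ∧
    ¬ ∃ L : M, IsLusinSet E L := by
  have := uncountable_W
  obtain ⟨L⟩ := Lad.exists countable_below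
  obtain ⟨U, -⟩ := UF.exists_mem (B := CRAlg (muK (Set W))) top_ne_bot
  exact ⟨Mod U, Emem U, modelZFC U, ⟨cls U (XN _ W), cls U (tauN L),
    isOmegaOne countable_below U, isDowkerSpace countable_below L U,
    isFirstCountable countable_below L U, isLocallyCountable countable_below L U⟩,
    fun ⟨l, hl⟩ => not_isLusinSet countable_below U l hl⟩

end Pool.Agent.Results.MP_cba831_lc.DowkerNoLusin
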